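import Mathlib

/-!
# Fermi-Amaldi Thomas-Fermi-von Weizsäcker theory of an atom: definitions
-/

set_option autoImplicit false

open MeasureTheory
open scoped ContDiff

namespace Pool.Agent.Q235.FA

/-- `ρ` is a density (`ρ ≥ 0`, `ρ ∈ L¹ ∩ L^{5/3}`) on `ℝ³` and `g ∈ L²` is the distributional
gradient of `ρ^{1/2}`. -/
structure Density (ρ : EuclideanSpace ℝ (Fin 3) → ℝ)
    (g : EuclideanSpace ℝ (Fin 3) → EuclideanSpace ℝ (Fin 3)) : Prop where
  nonneg : ∀ x, 0 ≤ ρ x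
  integrable : Integrable ρ
  integrable_rpow : Integrable (fun x => ρ x ^ (5/3 : ℝ))
  grad_memLp : MemLp g 2
  grad_weak : ∀ φ : EuclideanSpace ℝ (Fin 3) → ℝ, ContDiff ℝ ∞ φ → HasCompactSupport φ →
    ∀ v : EuclideanSpace ℝ (Fin 3),
      ∫ x, √(ρ x) * fderiv ℝ φ x v = -∫ x, inner ℝ (g x) v * φ x

/-- The Fermi-Amaldi TFW functional with `A = 0.1859`, `γ = (3π²)^{2/3}`, nuclear charge `z` and
electron number `N` (`g` is the gradient of `ρ^{1/2}`). -/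
noncomputable def energy (z N : ℕ) (ρ : EuclideanSpace ℝ (Fin 3) → ℝ)
    (g : EuclideanSpace ℝ (Fin 3) → EuclideanSpace ℝ (Fin 3)) : ℝ :=
  0.1859 * (∫ x, ‖g x‖ ^ 2) + 3 / 5 * (3 * Real.pi ^ 2) ^ (2/3 : ℝ) * (∫ x, ρ x ^ (5/3 : ℝ))
    - (∫ x, z / ‖x‖ * ρ x)
    + (1 - 1 / N) * (1 / 2 * ∫ x, ∫ y, ρ x * ρ y / ‖x - y‖)

/-- The values of the functional on densities of total mass `N`. -/
def values (z N : ℕ) : Set ℝ :=
  {e | ∃ ρ g, Density ρ g ∧ ∫ x, ρ x = N ∧ energy z N ρ g = e}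

/-- The ground state energy `E(N)` for nuclear charge `z`. -/
noncomputable def E (z N : ℕ) : ℝ := sInf (values z N)

end Pool.Agent.Q235.FA
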