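import Mathlib
import Pool.Agent.Helper149.TFDW

/-!
# A Hardy type inequality with exponential weight, and its extension to admissible densities
-/

set_option autoImplicit false

open MeasureTheory Filter Topology Set
open scoped ENNReal NNReal ContDiff

namespace Pool.Agent.Q235.FA

abbrev E3 := EuclideanSpace ℝ (Fin 3)

/-- the regularised radius -/
noncomputable def rg (δ : ℝ) (x : E3) : ℝ := √(‖x‖ ^ 2 + δ ^ 2)

/-- the weight `α e^{-c s} (2/s - c) - α² e^{-2 c s}` as a function of the radius -/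
noncomputable def wt (α c s : ℝ) : ℝ :=
  α * Real.exp (-(c * s)) * (2 / s - c) - (α * Real.exp (-(c * s))) ^ 2

lemma rg_pos {δ : ℝ} (hδ : 0 < δ) (x : E3) : 0 < rg δ x := Real.sqrt_pos.mpr (by positivity)

lemma rg_sq (δ : ℝ) (x : E3) : rg δ x ^ 2 = ‖x‖ ^ 2 + δ ^ 2 := Real.sq_sqrt (by positivity)

lemma rg_ge {δ : ℝ} (x : E3) : δ ≤ rg δ x := by
  apply Real.le_sqrt_of_sq_le; nlinarith [sq_nonneg ‖x‖]

lemma rg_norm (δ : ℝ) (x : E3) : ‖x‖ ≤ rg δ x := by
  apply Real.le_sqrt_of_sq_le; nlinarith [sq_nonneg δ]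

lemma rg_cont (δ : ℝ) : Continuous (rg δ) := by
  unfold rg; apply Continuous.sqrt; fun_prop

lemma lineDeriv_h {h : ℝ → ℝ} {δ : ℝ} (hδ : 0 < δ) (i : Fin 3) (x : E3) {h' : ℝ}
    (hh : HasDerivAt h h' (rg δ x)) :
    HasLineDerivAt ℝ (fun x : E3 => x i * h (rg δ x))
      (h (rg δ x) + h' * (x i ^ 2 / rg δ x)) x (EuclideanSpace.single i (1 : ℝ)) := by
  set v : E3 := EuclideanSpace.single i (1 : ℝ) with hv
  have hpos : 0 < ‖x‖ ^ 2 + δ ^ 2 := by positivity
  have hnum : ∀ t : ℝ, (x + t • v) i = x i + t := by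
    intro t
    simp [hv]
  have hnorm : ∀ t : ℝ, ‖x + t • v‖ ^ 2 = ‖x‖ ^ 2 + 2 * t * x i + t ^ 2 := by
    intro t
    rw [norm_add_sq_real, norm_smul, inner_smul_right]
    have h2 : inner ℝ x v = x i := by
      rw [hv, EuclideanSpace.inner_single_right]; simp
    have h3 : ‖v‖ = 1 := by rw [hv]; simp
    rw [h2, h3, Real.norm_eq_abs, mul_one, sq_abs]
    ring
  show HasDerivAt (fun t : ℝ => (x + t • v) i * h (rg δ (x + t • v))) _ 0
  simp only [rg, hnum, hnorm]
  have h1 : HasDerivAt (fun t : ℝ => x i + t) 1 0 := by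
    simpa using (hasDerivAt_id (0:ℝ)).const_add (x i)
  have h2 : HasDerivAt (fun t : ℝ => ‖x‖ ^ 2 + 2 * t * x i + t ^ 2 + δ ^ 2)
      (2 * x i) 0 := by
    have h3 : HasDerivAt (fun t : ℝ => 2 * t * x i) (2 * 1 * x i) 0 :=
      ((hasDerivAt_id (0:ℝ)).const_mul 2).mul_const _
    have h4 : HasDerivAt (fun t : ℝ => t ^ 2) (2 * (0:ℝ) ^ 1) 0 := by
      simpa using hasDerivAt_pow 2 (0:ℝ)
    exact (((h3.const_add (‖x‖ ^ 2)).add h4).add_const (δ ^ 2)).congr_deriv (by ring)
  have h0 : ‖x‖ ^ 2 + 2 * (0:ℝ) * x i + (0:ℝ) ^ 2 + δ ^ 2 = ‖x‖ ^ 2 + δ ^ 2 := by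
    ring
  have h3 := h2.sqrt (by rw [h0]; exact hpos.ne')
  rw [h0] at h3
  have hh0 : HasDerivAt h h' (√(‖x‖ ^ 2 + 2 * (0:ℝ) * x i + (0:ℝ) ^ 2 + δ ^ 2)) := by
    rw [h0]; exact hh
  have h4 := h1.mul (HasDerivAt.comp (0:ℝ) hh0 h3)
  refine (h4.congr_deriv ?_)
  simp only [Function.comp_apply, h0, add_zero]
  have : 0 < √(‖x‖ ^ 2 + δ ^ 2) := Real.sqrt_pos.mpr hpos
  field_simp

/-- the profile of the field -/
noncomputable def hp (α c s : ℝ) : ℝ := α * Real.exp (-(c * s)) / s

lemma hp_deriv (α c : ℝ) {s : ℝ} (hs : 0 < s) :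
    HasDerivAt (hp α c) (-(c * α * Real.exp (-(c * s)) / s) - α * Real.exp (-(c * s)) / s ^ 2) s := by
  have h1 : HasDerivAt (fun s : ℝ => -(c * s)) (-(c * 1)) s :=
    ((hasDerivAt_id s).const_mul c).neg
  have h2 : HasDerivAt (fun s : ℝ => α * Real.exp (-(c * s))) (α * (Real.exp (-(c * s)) * (-(c * 1)))) s :=
    (h1.exp).const_mul α
  have h3 := h2.div (hasDerivAt_id s) hs.ne'
  refine h3.congr_deriv ?_
  simp only [id]
  field_simp

open Pool.Agent.Helper149.Hardy in
/-- the inequality for smooth functions -/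
theorem hardy_exp {α c : ℝ} (hα : 0 ≤ α) (hc : 0 ≤ c) (w : E3 → ℝ) (hw : ContDiff ℝ 1 w)
    (hint : Integrable (fun x => w x ^ 2)) (hint' : Integrable (fun x => ‖fderiv ℝ w x‖ ^ 2))
    (δ : ℝ) (hδ : 0 < δ) :
    Integrable (fun x => w x ^ 2 * wt α c (rg δ x)) ∧
    ∫ x, w x ^ 2 * wt α c (rg δ x) ≤ ∫ x, ‖fderiv ℝ w x‖ ^ 2 := by
  have hrpos : ∀ x : E3, 0 < rg δ x := rg_pos hδ
  have hrc := rg_cont δ
  have hexp : ∀ x : E3, Real.exp (-(c * rg δ x)) ≤ 1 := fun x => by
    rw [Real.exp_le_one_iff]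
    have := mul_nonneg hc (hrpos x).le
    linarith
  have hci : ∀ (x : E3) (i : Fin 3), |x i| ≤ ‖x‖ := by
    intro x i
    have := PiLp.norm_apply_le x i
    simpa using this
  let X : Fin 3 → E3 → ℝ := fun i x => x i * hp α c (rg δ x)
  let X' : Fin 3 → E3 → ℝ := fun i x => hp α c (rg δ x) +
    (-(c * α * Real.exp (-(c * rg δ x)) / rg δ x) - α * Real.exp (-(c * rg δ x)) / rg δ x ^ 2)
      * (x i ^ 2 / rg δ x)
  have hec : Continuous fun x : E3 => α * Real.exp (-(c * rg δ x)) := by fun_prop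
  have hhpc : Continuous fun x : E3 => hp α c (rg δ x) :=
    Continuous.div hec hrc (fun x => (hrpos x).ne')
  have hXc : ∀ i, Continuous (X i) := fun i => Continuous.mul (by fun_prop) hhpc
  have hX'c : ∀ i, Continuous (X' i) := fun i => by
    refine hhpc.add (Continuous.mul (Continuous.sub (Continuous.neg ?_) ?_) ?_)
    · exact Continuous.div (by fun_prop) hrc (fun x => (hrpos x).ne')
    · exact Continuous.div hec (hrc.pow 2) (fun x => (pow_pos (hrpos x) 2).ne')
    · exact Continuous.div (by fun_prop) hrc (fun x => (hrpos x).ne')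
  have hhp0 : ∀ x : E3, 0 ≤ hp α c (rg δ x) := fun x => by
    unfold hp; have := hrpos x; positivity
  have hXb : ∀ i x, |X i x| ≤ α := by
    intro i x
    simp only [X]
    rw [abs_mul, abs_of_nonneg (hhp0 x)]
    calc |x i| * hp α c (rg δ x) ≤ rg δ x * hp α c (rg δ x) :=
          mul_le_mul_of_nonneg_right ((hci x i).trans (rg_norm δ x)) (hhp0 x)
      _ = α * Real.exp (-(c * rg δ x)) := by
          unfold hp; have := (hrpos x).ne'; field_simp
      _ ≤ α * 1 := mul_le_mul_of_nonneg_left (hexp x) hα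
      _ = α := mul_one α
  have hX'b : ∀ i x, |X' i x| ≤ α / δ + (c * α + α / δ) := by
    intro i x
    have hr := hrpos x
    have hxr : x i ^ 2 ≤ rg δ x ^ 2 := by
      rw [sq_le_sq, abs_of_pos hr]
      exact (hci x i).trans (rg_norm δ x)
    have e1 : hp α c (rg δ x) ≤ α / δ := by
      unfold hp
      calc α * Real.exp (-(c * rg δ x)) / rg δ x ≤ α * 1 / rg δ x := by
            have := hexp x
            gcongr
        _ ≤ α * 1 / δ := by
            have := rg_ge (δ := δ) x
            gcongr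
        _ = α / δ := by ring
    have e2 : |(-(c * α * Real.exp (-(c * rg δ x)) / rg δ x) - α * Real.exp (-(c * rg δ x)) / rg δ x ^ 2)
      * (x i ^ 2 / rg δ x)| ≤ c * α + α / δ := by
      have e3 : (-(c * α * Real.exp (-(c * rg δ x)) / rg δ x) - α * Real.exp (-(c * rg δ x)) / rg δ x ^ 2)
          * (x i ^ 2 / rg δ x) = - ((c * (α * Real.exp (-(c * rg δ x))) +
            hp α c (rg δ x)) * (x i ^ 2 / rg δ x ^ 2)) := by
        unfold hp
        field_simp
        ring
      rw [e3, abs_neg, abs_of_nonneg (by have := hhp0 x; positivity)]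
      have e4 : x i ^ 2 / rg δ x ^ 2 ≤ 1 := by
        rw [div_le_one (by positivity)]; exact hxr
      have e5 : c * (α * Real.exp (-(c * rg δ x))) ≤ c * α := by
        have := hexp x
        calc c * (α * Real.exp (-(c * rg δ x))) ≤ c * (α * 1) := by gcongr
          _ = c * α := by ring
      calc (c * (α * Real.exp (-(c * rg δ x))) + hp α c (rg δ x)) * (x i ^ 2 / rg δ x ^ 2)
          ≤ (c * (α * Real.exp (-(c * rg δ x))) + hp α c (rg δ x)) * 1 :=
            mul_le_mul_of_nonneg_left e4 (by have := hhp0 x; positivity)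
        _ ≤ c * α + α / δ := by linarith
    calc |X' i x| ≤ |hp α c (rg δ x)| + |(-(c * α * Real.exp (-(c * rg δ x)) / rg δ x) - α * Real.exp (-(c * rg δ x)) / rg δ x ^ 2)
      * (x i ^ 2 / rg δ x)| := abs_add_le _ _
      _ ≤ _ := by rw [abs_of_nonneg (hhp0 x)]; linarith
  have hwd : Differentiable ℝ w := hw.differentiable (by simp)
  have hwc : Continuous w := hw.continuous
  have hwfc : Continuous (fderiv ℝ w) := hw.continuous_fderiv (by simp)
  have hpart : ∀ i, Integrable (fun x => 2 * (w x * fderiv ℝ w x (EuclideanSpace.single i (1:ℝ)))) := by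
    intro i
    refine (hint.add hint').mono' ?_ (ae_of_all _ fun x => ?_)
    · exact (continuous_const.mul (hwc.mul (hwfc.clm_apply continuous_const))).aestronglyMeasurable
    · have h1 := (fderiv ℝ w x).le_opNorm (EuclideanSpace.single i (1:ℝ))
      have h2 : |fderiv ℝ w x (EuclideanSpace.single i (1:ℝ))| ≤ ‖fderiv ℝ w x‖ := by
        simpa using h1
      simp only [Pi.add_apply]
      rw [Real.norm_eq_abs, abs_mul, abs_mul, abs_two]
      have h3 := mul_le_mul_of_nonneg_left h2 (abs_nonneg (w x))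
      nlinarith [sq_nonneg (|w x| - ‖fderiv ℝ w x‖), sq_abs (w x)]
  have hIBP : ∀ i, ∫ x, w x ^ 2 * X' i x
      = - ∫ x, (2 * (w x * fderiv ℝ w x (EuclideanSpace.single i (1:ℝ)))) * X i x := by
    intro i
    refine integral_bilinear_hasLineDerivAt_right_eq_neg_left_of_integrable
      (B := ContinuousLinearMap.mul ℝ ℝ) (μ := volume)
      (f' := fun x => 2 * (w x * fderiv ℝ w x (EuclideanSpace.single i (1:ℝ))))
      (v := EuclideanSpace.single i (1:ℝ)) ?_ ?_ ?_ ?_ ?_
    · exact integrable_of_bdd_mul (hpart i) (hXc i) _ (hXb i)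
    · exact integrable_of_bdd_mul hint (hX'c i) _ (hX'b i)
    · exact integrable_of_bdd_mul hint (hXc i) _ (hXb i)
    · intro x _
      have h := ((hwd x).hasFDerivAt.pow 2).hasLineDerivAt (EuclideanSpace.single i (1:ℝ))
      refine h.congr_deriv ?_
      simp
      ring
    · intro x _
      exact lineDeriv_h hδ i x (hp_deriv α c (hrpos x))
  have hI1 : ∀ i, Integrable (fun x => w x ^ 2 * X' i x) := fun i =>
    integrable_of_bdd_mul hint (hX'c i) _ (hX'b i)
  have hI2 : ∀ i, Integrable (fun x => (2 * (w x * fderiv ℝ w x (EuclideanSpace.single i (1:ℝ)))) * X i x) :=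
    fun i => integrable_of_bdd_mul (hpart i) (hXc i) _ (hXb i)
  have hsum : ∫ x, w x ^ 2 * (∑ i, X' i x)
      = - ∫ x, ∑ i, (2 * (w x * fderiv ℝ w x (EuclideanSpace.single i (1:ℝ)))) * X i x := by
    simp only [Finset.mul_sum]
    rw [integral_finsetSum _ (fun i _ => hI1 i), integral_finsetSum _ (fun i _ => hI2 i),
      ← Finset.sum_neg_distrib]
    exact Finset.sum_congr rfl fun i _ => hIBP i
  have hsqn : ∀ x : E3, ‖x‖ ^ 2 = ∑ i, x i ^ 2 := by
    intro x
    rw [EuclideanSpace.norm_sq_eq]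
    simp
  have hsumX' : ∀ x, α * Real.exp (-(c * rg δ x)) * (2 / rg δ x - c) ≤ ∑ i, X' i x := by
    intro x
    have hr := hrpos x
    set e := α * Real.exp (-(c * rg δ x)) with he
    have he0 : 0 ≤ e := by positivity
    have h1 : ∑ i, X' i x = e * (3 / rg δ x - (c / rg δ x ^ 2 + 1 / rg δ x ^ 3) * ‖x‖ ^ 2) := by
      rw [hsqn x]
      simp only [X', hp, Fin.sum_univ_three, he]
      field_simp
      ring
    rw [h1]
    refine mul_le_mul_of_nonneg_left ?_ he0
    have h2 : (c / rg δ x ^ 2 + 1 / rg δ x ^ 3) * ‖x‖ ^ 2 ≤ (c / rg δ x ^ 2 + 1 / rg δ x ^ 3) * rg δ x ^ 2 := by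
      refine mul_le_mul_of_nonneg_left ?_ (by positivity)
      rw [rg_sq]; nlinarith [sq_nonneg δ]
    have h3 : (c / rg δ x ^ 2 + 1 / rg δ x ^ 3) * rg δ x ^ 2 = c + 1 / rg δ x := by
      field_simp
    have h4 : 3 / rg δ x = 2 / rg δ x + 1 / rg δ x := by ring
    linarith
  have hfield : ∀ x, ∑ i, (2 * (w x * fderiv ℝ w x (EuclideanSpace.single i (1:ℝ)))) * X i x
      = 2 * (w x * (hp α c (rg δ x) * fderiv ℝ w x x)) := by
    intro x
    have h1 : fderiv ℝ w x x = ∑ i, x i * fderiv ℝ w x (EuclideanSpace.single i (1:ℝ)) := by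
      have h2 : x = ∑ i, x i • (EuclideanSpace.single i (1:ℝ) : E3) := by
        ext j
        fin_cases j <;> simp [Fin.sum_univ_three]
      conv_lhs => rw [show fderiv ℝ w x x = fderiv ℝ w x (∑ i, x i • (EuclideanSpace.single i (1:ℝ) : E3)) by rw [← h2]]
      rw [map_sum]
      simp
    rw [h1, Fin.sum_univ_three, Fin.sum_univ_three]
    simp only [X]
    ring
  have hwtI : Integrable (fun x => w x ^ 2 * wt α c (rg δ x)) := by
    refine integrable_of_bdd_mul hint ?_ (α * (2 / δ + c) + α ^ 2) ?_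
    · unfold wt
      refine (hec.mul ((continuous_const.div hrc (fun x => (hrpos x).ne')).sub continuous_const)).sub (hec.pow 2)
    · intro x
      unfold wt
      have hr := hrpos x
      set e := Real.exp (-(c * rg δ x)) with he
      have he0 : 0 < e := Real.exp_pos _
      have he1 : e ≤ 1 := hexp x
      have h1 : |2 / rg δ x - c| ≤ 2 / δ + c := by
        have h2 : 2 / rg δ x ≤ 2 / δ := by
          have := rg_ge (δ := δ) x
          gcongr
        have h3 : 0 < 2 / rg δ x := by positivity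
        rw [abs_le]
        constructor <;> linarith [show 0 ≤ 2 / δ by positivity]
      have h2 : |α * e * (2 / rg δ x - c)| ≤ α * (2 / δ + c) := by
        rw [abs_mul, abs_of_nonneg (by positivity : 0 ≤ α * e)]
        have : 0 ≤ 2 / δ + c := by positivity
        calc α * e * |2 / rg δ x - c| ≤ α * 1 * (2 / δ + c) := by gcongr
          _ = _ := by ring
      have h3 : |(α * e) ^ 2| ≤ α ^ 2 := by
        rw [abs_of_nonneg (by positivity)]
        have : α * e ≤ α := by nlinarith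
        exact pow_le_pow_left₀ (by positivity) this 2
      exact (abs_sub _ _).trans (by linarith)
  refine ⟨hwtI, ?_⟩
  have hI3 : Integrable (fun x => w x ^ 2 * (∑ i, X' i x)) := by
    simp only [Finset.mul_sum]
    exact integrable_finsetSum _ (fun i _ => hI1 i)
  have hI4 : Integrable (fun x => w x ^ 2 * (α * Real.exp (-(c * rg δ x))) ^ 2) := by
    refine integrable_of_bdd_mul hint (hec.pow 2) (α ^ 2) (fun x => ?_)
    rw [abs_of_nonneg (by positivity)]
    have : α * Real.exp (-(c * rg δ x)) ≤ α := by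
      have := hexp x
      calc α * Real.exp (-(c * rg δ x)) ≤ α * 1 := by gcongr
        _ = α := mul_one α
    exact pow_le_pow_left₀ (by positivity) this 2
  have hI5 : Integrable (fun x => 2 * (w x * (hp α c (rg δ x) * fderiv ℝ w x x))) := by
    have : Integrable (fun x => ∑ i, (2 * (w x * fderiv ℝ w x (EuclideanSpace.single i (1:ℝ)))) * X i x) :=
      integrable_finsetSum _ (fun i _ => hI2 i)
    simpa only [hfield] using this
  calc ∫ x, w x ^ 2 * wt α c (rg δ x)
      ≤ ∫ x, (w x ^ 2 * (∑ i, X' i x) - w x ^ 2 * (α * Real.exp (-(c * rg δ x))) ^ 2) := by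
        refine integral_mono hwtI (hI3.sub hI4) (fun x => ?_)
        simp only [wt]
        have := mul_le_mul_of_nonneg_left (hsumX' x) (sq_nonneg (w x))
        rw [mul_sub]
        linarith
    _ = (∫ x, w x ^ 2 * (∑ i, X' i x)) - ∫ x, w x ^ 2 * (α * Real.exp (-(c * rg δ x))) ^ 2 :=
        integral_sub hI3 hI4
    _ = - (∫ x, 2 * (w x * (hp α c (rg δ x) * fderiv ℝ w x x)))
          - ∫ x, w x ^ 2 * (α * Real.exp (-(c * rg δ x))) ^ 2 := by
        rw [hsum]; simp only [hfield]
    _ = ∫ x, (- (2 * (w x * (hp α c (rg δ x) * fderiv ℝ w x x)))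
          - w x ^ 2 * (α * Real.exp (-(c * rg δ x))) ^ 2) := by
        have hI5' : Integrable (fun x => - (2 * (w x * (hp α c (rg δ x) * fderiv ℝ w x x)))) := hI5.neg
        rw [integral_sub hI5' hI4, integral_neg]
    _ ≤ ∫ x, ‖fderiv ℝ w x‖ ^ 2 := by
        refine integral_mono (hI5.neg.sub hI4) hint' (fun x => ?_)
        simp only
        have h1 := (fderiv ℝ w x).le_opNorm x
        rw [Real.norm_eq_abs] at h1
        have h2 : |hp α c (rg δ x) * fderiv ℝ w x x| ≤ α * Real.exp (-(c * rg δ x)) * ‖fderiv ℝ w x‖ := by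
          rw [abs_mul, abs_of_nonneg (hhp0 x)]
          calc hp α c (rg δ x) * |fderiv ℝ w x x| ≤ hp α c (rg δ x) * (‖fderiv ℝ w x‖ * rg δ x) := by
                refine mul_le_mul_of_nonneg_left (h1.trans ?_) (hhp0 x)
                exact mul_le_mul_of_nonneg_left (rg_norm δ x) (norm_nonneg _)
            _ = α * Real.exp (-(c * rg δ x)) * ‖fderiv ℝ w x‖ := by
                unfold hp; have := (hrpos x).ne'; field_simp
        set e := α * Real.exp (-(c * rg δ x))
        set D := hp α c (rg δ x) * fderiv ℝ w x x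
        set G := ‖fderiv ℝ w x‖
        have hG : 0 ≤ G := norm_nonneg _
        have h3 : |w x * D| ≤ |w x| * (e * G) := by
          rw [abs_mul]; exact mul_le_mul_of_nonneg_left h2 (abs_nonneg _)
        have h4 := neg_abs_le (w x * D)
        nlinarith [sq_nonneg (|w x| * e - G), sq_abs (w x)]

/-- the weight as a function of position -/
noncomputable def Ph (α c : ℝ) (x : E3) : ℝ := wt α c ‖x‖

/-- the inequality for admissible densities -/
theorem hardy_adm {p α c : ℝ} (hp : 4 / 3 < p) (hα : 0 ≤ α) (hc : 0 ≤ c)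
    {ρ : E3 → ℝ} {g : E3 → E3} (h : Pool.Agent.Helper149.TFDW.Admissible p ρ g) :
    Integrable (fun x => ρ x * Ph α c x) ∧
    ∫ x, ρ x * Ph α c x ≤ ∫ x, ‖g x‖ ^ 2 := by
  obtain ⟨hg2, -, w, hws, hw0, hwlim, hw2, -, -, hwgrad⟩ := Pool.Agent.Helper149.TFDW.approx hp h
  let δ : ℕ → ℝ := fun n => 1 / ((n:ℝ) + 1)
  have hδ : ∀ n, 0 < δ n := fun n => by positivity
  have hδlim : Tendsto δ atTop (𝓝 0) := tendsto_one_div_add_atTop_nhds_zero_nat
  set M : ℝ := α * c + α ^ 2 with hM
  have hM0 : 0 ≤ M := by positivity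
  have hwtM : ∀ s : ℝ, 0 ≤ s → 0 ≤ wt α c s + M := by
    intro s hs
    unfold wt
    set e := Real.exp (-(c * s)) with he
    have he0 : 0 < e := Real.exp_pos _
    have he1 : e ≤ 1 := by
      rw [he, Real.exp_le_one_iff]
      have := mul_nonneg hc hs
      linarith
    have h1 : 0 ≤ 2 / s := by positivity
    have h2 : α * e * (2 / s - c) ≥ - (α * c) := by
      have : 0 ≤ α * e := by positivity
      have h3 : α * e * c ≤ α * 1 * c := by gcongr
      nlinarith [mul_nonneg this h1]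
    have h3 : (α * e) ^ 2 ≤ α ^ 2 := by
      have : α * e ≤ α := by nlinarith
      exact pow_le_pow_left₀ (by positivity) this 2
    rw [hM]; linarith
  let G : ℕ → E3 → ℝ := fun n x => w n x ^ 2 * wt α c (rg (δ n) x) + M * w n x ^ 2
  let L : E3 → ℝ := fun x => ρ x * Ph α c x + M * ρ x
  have hH := fun n => hardy_exp hα hc (w n) ((hws n).of_le (by simp)) (hw2 n).1 (hwgrad n).1
    (δ n) (hδ n)
  have hF := Pool.Agent.Helper149.Fatou.fatou_real (μ := (volume : Measure E3)) G L
    ((∫ x, ‖g x‖ ^ 2) + M * ∫ x, ρ x) ?_ ?_ ?_ ?_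
  · obtain ⟨hLi, hLB⟩ := hF
    have hI : Integrable (fun x => ρ x * Ph α c x) := by
      refine (hLi.sub (h.integrable.const_mul M)).congr (ae_of_all _ fun x => ?_)
      simp [L]
    refine ⟨hI, ?_⟩
    have h3 : ∫ x, L x = (∫ x, ρ x * Ph α c x) + M * ∫ x, ρ x := by
      show ∫ x, (ρ x * Ph α c x + M * ρ x) = _
      rw [integral_add hI (h.integrable.const_mul _), integral_const_mul]
    linarith
  · intro n x
    have := hwtM (rg (δ n) x) (rg_pos (hδ n) x).le
    have h2 := sq_nonneg (w n x)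
    show 0 ≤ w n x ^ 2 * wt α c (rg (δ n) x) + M * w n x ^ 2
    nlinarith [mul_nonneg h2 this]
  · intro n
    exact (hH n).1.add ((hw2 n).1.const_mul _)
  · intro n
    have h1 : ∫ x, G n x = (∫ x, w n x ^ 2 * wt α c (rg (δ n) x)) + M * ∫ x, w n x ^ 2 := by
      show ∫ x, (w n x ^ 2 * wt α c (rg (δ n) x) + M * w n x ^ 2) = _
      rw [integral_add (hH n).1 ((hw2 n).1.const_mul _), integral_const_mul]
    rw [h1]
    have h2 := (hH n).2.trans (hwgrad n).2
    have h3 := mul_le_mul_of_nonneg_left (hw2 n).2 hM0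
    linarith
  · have hne : ∀ᵐ x : E3, x ≠ 0 := by
      rw [ae_iff]
      simp
    filter_upwards [hwlim, hne] with x hx hxa
    have hxa' : 0 < ‖x‖ := norm_pos_iff.mpr hxa
    have h1 : Tendsto (fun n => w n x ^ 2) atTop (𝓝 (ρ x)) := hx
    have h2 : Tendsto (fun n => rg (δ n) x) atTop (𝓝 ‖x‖) := by
      have h3 : Tendsto (fun n => ‖x‖ ^ 2 + δ n ^ 2) atTop (𝓝 (‖x‖ ^ 2 + 0 ^ 2)) :=
        (hδlim.pow 2).const_add _
      have h4 := (Real.continuous_sqrt.tendsto _).comp h3
      simpa [Function.comp_def, Real.sqrt_sq hxa'.le, rg] using h4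
    have h3 : Tendsto (fun n => wt α c (rg (δ n) x)) atTop (𝓝 (wt α c ‖x‖)) := by
      have h4 : ContinuousAt (wt α c) ‖x‖ := by
        unfold wt
        have : ContinuousAt (fun s : ℝ => 2 / s) ‖x‖ := continuousAt_const.div continuousAt_id hxa'.ne'
        fun_prop
      exact h4.tendsto.comp h2
    exact (h1.mul h3).add (h1.const_mul M)

end Pool.Agent.Q235.FA
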