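import Mathlib
import Pool.Agent.Q233.TFShell
import Pool.Agent.TH791.Coul

/-!
# The comparison charge density, its potential and the values of the integrals
-/

set_option autoImplicit false

open MeasureTheory Filter Topology Set
open scoped ENNReal NNReal ContDiff

namespace Pool.Agent.Q235.FA

/-- `e^{-r/8}` -/
noncomputable def T (r : ℝ) : ℝ := Real.exp (-(r / 8))

lemma T_pos (r : ℝ) : 0 < T r := Real.exp_pos _

lemma T_le_one {r : ℝ} (hr : 0 ≤ r) : T r ≤ 1 := by
  unfold T; rw [Real.exp_le_one_iff]; linarith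

lemma T_cont : Continuous T := by unfold T; fun_prop

lemma T_pow (k : ℕ) (r : ℝ) : T r ^ k = Real.exp (-((k / 8 : ℝ) * r)) := by
  unfold T; rw [← Real.exp_nat_mul]; congr 1; ring

lemma T_deriv (r : ℝ) : HasDerivAt T (-(T r / 8)) r := by
  have h1 : HasDerivAt (fun r : ℝ => -(r / 8)) (-(1 / 8)) r :=
    ((hasDerivAt_id r).div_const 8).neg
  exact (h1.exp).congr_deriv (by unfold T; ring)

/-- `∫ r^j e^{-kr/8}` -/
lemma mono_int (j k : ℕ) (hk : 1 ≤ k) :
    IntegrableOn (fun r : ℝ => r ^ j * T r ^ k) (Ioi 0) ∧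
    ∫ r in Ioi (0:ℝ), r ^ j * T r ^ k = j.factorial * (8 / k : ℝ) ^ (j + 1) := by
  have hk0 : (0:ℝ) < k := by exact_mod_cast hk
  have hkp : (0:ℝ) < k / 8 := by positivity
  have h1 : ∀ r ∈ Ioi (0:ℝ), r ^ ((j + 1 : ℝ) - 1) * Real.exp (-((k / 8 : ℝ) * r)) = r ^ j * T r ^ k := by
    intro r hr
    rw [T_pow, add_sub_cancel_right, Real.rpow_natCast]
  have hv := Real.integral_rpow_mul_exp_neg_mul_Ioi (a := (j + 1 : ℝ)) (r := (k / 8 : ℝ))
    (by positivity) hkp
  rw [setIntegral_congr_fun measurableSet_Ioi h1] at hv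
  have hval : (1 / (k / 8 : ℝ)) ^ (j + 1 : ℝ) * Real.Gamma (j + 1) = j.factorial * (8 / k : ℝ) ^ (j + 1) := by
    rw [Real.Gamma_nat_eq_factorial]
    have : ((j:ℝ) + 1) = ((j + 1 : ℕ) : ℝ) := by push_cast; ring
    rw [this, Real.rpow_natCast, one_div_div]
    ring
  rw [hval] at hv
  refine ⟨?_, hv⟩
  by_contra hc
  rw [IntegrableOn] at hc
  rw [integral_undef hc] at hv
  have : (0:ℝ) < j.factorial * (8 / k : ℝ) ^ (j + 1) := by
    have := Nat.factorial_pos j
    positivity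
  linarith

/-- `∫` of a finite combination of monomials `r^j e^{-kr/8}` -/
lemma comb_int (n : ℕ) (c : Fin n → ℝ) (j k : Fin n → ℕ) (hk : ∀ i, 1 ≤ k i) :
    IntegrableOn (fun r : ℝ => ∑ i, c i * (r ^ j i * T r ^ k i)) (Ioi 0) ∧
    ∫ r in Ioi (0:ℝ), ∑ i, c i * (r ^ j i * T r ^ k i)
      = ∑ i, c i * ((j i).factorial * (8 / k i : ℝ) ^ (j i + 1)) := by
  refine ⟨?_, ?_⟩
  · exact integrable_finsetSum _ (fun i _ => (mono_int (j i) (k i) (hk i)).1.const_mul _)
  · rw [integral_finsetSum _ (fun i _ => (mono_int (j i) (k i) (hk i)).1.const_mul _)]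
    refine Finset.sum_congr rfl (fun i _ => ?_)
    rw [integral_const_mul, (mono_int (j i) (k i) (hk i)).2]

/-- `P(r) = r φ(r)` -/
noncomputable def P (r : ℝ) : ℝ :=
  1 - 3/5 * T r + (-(2/5) + r / 20) * T r ^ 2 + 400/1859 * r * T r ^ 4

/-- `P'` -/
noncomputable def P1 (r : ℝ) : ℝ :=
  3/40 * T r + (3/20 - r / 80) * T r ^ 2 + (400/1859 - 200/1859 * r) * T r ^ 4

/-- `-P''` -/
noncomputable def S (r : ℝ) : ℝ :=
  3/320 * T r + (1/20 - r / 320) * T r ^ 2 + (400/1859 - 100/1859 * r) * T r ^ 4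

lemma P_cont : Continuous P := by
  have := T_cont; unfold P; fun_prop

lemma P1_cont : Continuous P1 := by
  have := T_cont; unfold P1; fun_prop

lemma S_cont : Continuous S := by
  have := T_cont; unfold S; fun_prop

lemma P_zero : P 0 = 0 := by
  unfold P T; norm_num

lemma P_deriv (r : ℝ) : HasDerivAt P (P1 r) r := by
  have hT := T_deriv r
  have hid := hasDerivAt_id r
  have h1 : HasDerivAt P (0 - 3/5 * (-(T r / 8)) +
      ((0 + 1 / 20) * T r ^ 2 + (-(2/5) + r / 20) * ((2:ℕ) * T r ^ (2 - 1) * (-(T r / 8)))) +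
      ((400/1859 * 1) * T r ^ 4 + 400/1859 * r * ((4:ℕ) * T r ^ (4 - 1) * (-(T r / 8))))) r := by
    unfold P
    refine HasDerivAt.add (HasDerivAt.add (HasDerivAt.sub (hasDerivAt_const _ _) (hT.const_mul _)) ?_) ?_
    · exact HasDerivAt.mul (HasDerivAt.add (hasDerivAt_const _ _) (hid.div_const 20)) (hT.pow 2)
    · exact HasDerivAt.mul (hid.const_mul _) (hT.pow 4)
  refine h1.congr_deriv ?_
  unfold P1
  norm_num
  ring

lemma P1_deriv (r : ℝ) : HasDerivAt P1 (-(S r)) r := by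
  have hT := T_deriv r
  have hid := hasDerivAt_id r
  have h1 : HasDerivAt P1 (3/40 * (-(T r / 8)) +
      ((0 - 1 / 80) * T r ^ 2 + (3/20 - r / 80) * ((2:ℕ) * T r ^ (2 - 1) * (-(T r / 8)))) +
      ((0 - 200/1859 * 1) * T r ^ 4 + (400/1859 - 200/1859 * r) * ((4:ℕ) * T r ^ (4 - 1) * (-(T r / 8))))) r := by
    unfold P1
    refine HasDerivAt.add (HasDerivAt.add (hT.const_mul _) ?_) ?_
    · exact HasDerivAt.mul (HasDerivAt.sub (hasDerivAt_const _ _) (hid.div_const 80)) (hT.pow 2)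
    · exact HasDerivAt.mul (HasDerivAt.sub (hasDerivAt_const _ _) (hid.const_mul _)) (hT.pow 4)
  refine h1.congr_deriv ?_
  unfold S
  norm_num
  ring

lemma rT_le {r : ℝ} : r * T r ≤ 8 := by
  unfold T
  have h := Real.add_one_le_exp (r / 8)
  have h2 : 0 < Real.exp (r / 8) := Real.exp_pos _
  rw [Real.exp_neg]
  rw [mul_inv_le_iff₀ h2]
  nlinarith

lemma S_bd {r : ℝ} (hr : 0 ≤ r) : |S r| ≤ T r := by
  have h0 := T_pos r
  have h1 := T_le_one hr
  have h2 := rT_le (r := r)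
  have h3 : T r ^ 2 ≤ T r := by nlinarith
  have h4 : T r ^ 4 ≤ T r ^ 2 := by nlinarith [sq_nonneg (T r), mul_pos h0 h0]
  have h5 : r * T r ^ 2 ≤ 8 * T r := by nlinarith
  have h6 : r * T r ^ 4 ≤ 8 * T r := by
    have : r * T r ^ 4 ≤ r * T r ^ 2 := mul_le_mul_of_nonneg_left h4 hr
    linarith
  have h7 : 0 ≤ r * T r ^ 2 := by positivity
  have h8 : 0 ≤ r * T r ^ 4 := by positivity
  unfold S
  rw [abs_le]
  constructor <;> nlinarith

lemma P1_tend : Tendsto P1 atTop (𝓝 0) := by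
  have h : ∀ j k : ℕ, 1 ≤ k → Tendsto (fun r : ℝ => r ^ j * T r ^ k) atTop (𝓝 0) := by
    intro j k hk
    have hk0 : (0:ℝ) < k / 8 := by
      have : (0:ℝ) < k := by exact_mod_cast hk
      positivity
    have := Real.tendsto_pow_mul_exp_neg_atTop_nhds_zero j
    have h2 := this.comp (tendsto_id.const_mul_atTop hk0)
    have h3 := h2.const_mul ((8 / k : ℝ) ^ j)
    rw [mul_zero] at h3
    refine h3.congr (fun r => ?_)
    simp only [Function.comp_apply, id]
    rw [T_pow, mul_pow, ← mul_assoc, ← mul_assoc, ← mul_pow]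
    have : (8 / k : ℝ) * (k / 8) = 1 := by
      have : (k:ℝ) ≠ 0 := by positivity
      field_simp
    rw [this, one_pow, one_mul]
  have h1 := ((h 0 1 le_rfl).const_mul (3/40)).add
    ((((h 0 2 (by norm_num)).const_mul (3/20)).sub ((h 1 2 (by norm_num)).const_mul (1/80))).add
      (((h 0 4 (by norm_num)).const_mul (400/1859)).sub ((h 1 4 (by norm_num)).const_mul (200/1859))))
  simp only [mul_zero, sub_zero, add_zero] at h1
  refine h1.congr (fun r => ?_)
  unfold P1
  ring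

lemma S_intOn : IntegrableOn S (Ioi 0) := by
  have h := (mono_int 0 1 le_rfl).1
  refine Integrable.mono' h S_cont.aestronglyMeasurable ?_
  rw [ae_restrict_iff' measurableSet_Ioi]
  refine ae_of_all _ (fun r hr => ?_)
  rw [Real.norm_eq_abs]
  simpa using S_bd (le_of_lt hr)

/-- the one dimensional form of Newton's theorem for the comparison charge -/
lemma newton1 {R : ℝ} (hR : 0 < R) :
    ∫ r in Ioi (0:ℝ), r * S r / max r R = P R / R := by
  have hS := S_intOn
  have e1 : ∫ r in (0:ℝ)..R, r * S r = P R - R * P1 R := by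
    have hd : ∀ r ∈ uIcc 0 R, HasDerivAt (fun r => P r - r * P1 r) (r * S r) r := by
      intro r _
      refine ((P_deriv r).sub ((hasDerivAt_id r).mul (P1_deriv r))).congr_deriv ?_
      simp only [id]; ring
    have := intervalIntegral.integral_eq_sub_of_hasDerivAt hd
      ((continuous_id.mul S_cont).intervalIntegrable _ _)
    simp only [P_zero, zero_mul, sub_zero] at this
    exact this
  have e2 : ∫ r in Ioi R, S r = P1 R := by
    have hd : ∀ r ∈ Ici R, HasDerivAt (fun r => -(P1 r)) (S r) r := by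
      intro r _
      exact (P1_deriv r).neg.congr_deriv (by ring)
    have := integral_Ioi_of_hasDerivAt_of_tendsto' hd (hS.mono_set (Ioi_subset_Ioi hR.le))
      (by simpa using P1_tend.neg)
    simpa using this
  have hi1 : IntegrableOn (fun r : ℝ => r * S r / max r R) (Ioc 0 R) := by
    have hc : Continuous (fun r : ℝ => r * S r / max r R) := by
      refine (continuous_id.mul S_cont).div (continuous_id.max continuous_const)
        (fun x => (lt_of_lt_of_le hR (le_max_right _ _)).ne')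
    exact (hc.continuousOn.integrableOn_compact isCompact_Icc).mono_set Ioc_subset_Icc_self
  have hi2 : IntegrableOn (fun r : ℝ => r * S r / max r R) (Ioi R) := by
    refine (hS.mono_set (Ioi_subset_Ioi hR.le)).congr_fun (fun r hr => ?_) measurableSet_Ioi
    have : 0 < r := hR.trans hr
    rw [max_eq_left (le_of_lt hr)]
    field_simp
  rw [← Ioc_union_Ioi_eq_Ioi hR.le, setIntegral_union (Set.Ioc_disjoint_Ioi le_rfl) measurableSet_Ioi hi1 hi2]
  have e3 : ∫ r in Ioc 0 R, r * S r / max r R = (P R - R * P1 R) / R := by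
    rw [← e1, intervalIntegral.integral_of_le hR.le, ← integral_div]
    refine setIntegral_congr_fun measurableSet_Ioc (fun r hr => ?_)
    rw [max_eq_right hr.2]
  have e4 : ∫ r in Ioi R, r * S r / max r R = P1 R := by
    rw [← e2]
    refine setIntegral_congr_fun measurableSet_Ioi (fun r hr => ?_)
    have : 0 < r := hR.trans hr
    rw [max_eq_left (le_of_lt hr)]
    field_simp
  rw [e3, e4]
  field_simp
  ring

/-- the energy of the comparison charge -/
lemma SP_int : IntegrableOn (fun r => S r * P r) (Ioi 0) ∧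
    ∫ r in Ioi (0:ℝ), S r * P r = 3116899789/18661757400 := by
  have h := comb_int 15
    ![71/1600, 18141/92950, -27/800, 80/1859, -74423/1487200, 3/320, 255/7436, 3/1280,
      -160/1859, -240/1859, 160000/3455881, -40000/3455881, -25/7436, -1/320, -1/6400]
    ![0, 0, 0, 1, 1, 0, 1, 1, 0, 0, 1, 2, 2, 1, 2]
    ![2, 4, 3, 6, 4, 1, 5, 3, 6, 5, 8, 8, 6, 2, 4]
    (by decide)
  have he : ∀ r : ℝ, ∑ i, (![71/1600, 18141/92950, -27/800, 80/1859, -74423/1487200, 3/320, 255/7436, 3/1280,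
      -160/1859, -240/1859, 160000/3455881, -40000/3455881, -25/7436, -1/320, -1/6400] : Fin 15 → ℝ) i
      * (r ^ (![0, 0, 0, 1, 1, 0, 1, 1, 0, 0, 1, 2, 2, 1, 2] : Fin 15 → ℕ) i
        * T r ^ (![2, 4, 3, 6, 4, 1, 5, 3, 6, 5, 8, 8, 6, 2, 4] : Fin 15 → ℕ) i) = S r * P r := by
    intro r
    simp only [Fin.sum_univ_succ, Fin.sum_univ_zero, Matrix.cons_val_zero, Matrix.cons_val_succ]
    unfold S P
    ring
  simp only [he] at h
  refine ⟨h.1, ?_⟩
  rw [h.2]
  simp only [Fin.sum_univ_succ, Fin.sum_univ_zero, Matrix.cons_val_zero, Matrix.cons_val_succ]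
  norm_num [Nat.factorial]

/-- the comparison charge density -/
noncomputable def Gs (r : ℝ) : ℝ := S r / (4 * Real.pi * r)

lemma Gs_meas : Measurable Gs := by
  unfold Gs; exact S_cont.measurable.div (by fun_prop)

open Pool.Agent.Q233.TFShell Pool.Agent.Helper557.TFP in
/-- radial functions dominated by `C e^{-r/8} r^{-1}` are nice -/
lemma nice_rad {G : ℝ → ℝ} (hG : Measurable G) (hb : ∀ r, 0 < r → |G r| ≤ T r / r) :
    Pool.Agent.TH791.Cl.Nice (fun x : EuclideanSpace ℝ (Fin 3) => G ‖x‖) := by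
  have hm : Measurable (fun x : EuclideanSpace ℝ (Fin 3) => G ‖x‖) := hG.comp measurable_norm
  refine ⟨hm, ?_, ?_⟩
  · rw [rad_intble (f := G)]
    have h := (mono_int 1 1 le_rfl).1
    refine Integrable.mono' h ((measurable_id.pow_const 2).mul hG).aestronglyMeasurable ?_
    rw [ae_restrict_iff' measurableSet_Ioi]
    refine ae_of_all _ (fun r hr => ?_)
    have hr' : 0 < r := hr
    rw [norm_mul, Real.norm_eq_abs, Real.norm_eq_abs]
    rw [abs_of_nonneg (by positivity : 0 ≤ r ^ 2)]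
    calc r ^ 2 * |G r| ≤ r ^ 2 * (T r / r) := mul_le_mul_of_nonneg_left (hb r hr') (by positivity)
      _ = r ^ 1 * T r ^ 1 := by field_simp
  · have hk : IntegrableOn (fun r : ℝ => r ^ ((1:ℝ)/3) * Real.exp (-(1/8 : ℝ) * r ^ (1:ℝ))) (Ioi 0) :=
      integrableOn_rpow_mul_exp_neg_mul_rpow (by norm_num) one_pos (by norm_num)
    rw [rad_intble (f := fun r => |G r| ^ (5/3 : ℝ))]
    refine Integrable.mono' hk ((measurable_id.pow_const 2).mul (hG.abs.pow_const _)).aestronglyMeasurable ?_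
    rw [ae_restrict_iff' measurableSet_Ioi]
    refine ae_of_all _ (fun r hr => ?_)
    have hr' : 0 < r := hr
    rw [Real.norm_of_nonneg (by positivity)]
    have hT0 := T_pos r
    have hT1 := T_le_one hr'.le
    calc r ^ 2 * |G r| ^ (5/3 : ℝ) ≤ r ^ 2 * (T r / r) ^ (5/3 : ℝ) := by
          have := hb r hr'
          gcongr
      _ = r ^ ((1:ℝ)/3) * T r ^ (5/3 : ℝ) := by
          rw [Real.div_rpow hT0.le hr'.le]
          have h1 : r ^ 2 = r ^ ((1:ℝ)/3) * r ^ (5/3 : ℝ) := by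
            rw [← Real.rpow_add hr']; norm_num
          have h2 : r ^ (5/3 : ℝ) ≠ 0 := by positivity
          rw [h1]
          field_simp
      _ ≤ r ^ ((1:ℝ)/3) * T r := by
          have : T r ^ (5/3 : ℝ) ≤ T r ^ (1:ℝ) :=
            Real.rpow_le_rpow_of_exponent_ge hT0 hT1 (by norm_num)
          rw [Real.rpow_one] at this
          gcongr
      _ = _ := by
          rw [Real.rpow_one]; unfold T; congr 2; ring

lemma Gs_bd (r : ℝ) (hr : 0 < r) : |Gs r| ≤ T r / r := by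
  unfold Gs
  rw [abs_div, abs_of_pos (by positivity : 0 < 4 * Real.pi * r)]
  have h1 := S_bd hr.le
  have h2 : r ≤ 4 * Real.pi * r := by
    have := Real.pi_gt_three
    nlinarith
  have := T_pos r
  gcongr

lemma Gs_nice : Pool.Agent.TH791.Cl.Nice (fun x : EuclideanSpace ℝ (Fin 3) => Gs ‖x‖) :=
  nice_rad Gs_meas Gs_bd

open Pool.Agent.Q233.TFShell in
lemma Gs_pot {y : EuclideanSpace ℝ (Fin 3)} (hy : y ≠ 0) :
    Pool.Agent.TH791.Cl.pot (fun x => Gs ‖x‖) y = P ‖y‖ / ‖y‖ := by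
  have hR : 0 < ‖y‖ := norm_pos_iff.mpr hy
  unfold Pool.Agent.TH791.Cl.pot
  rw [shell Gs_meas hy]
  rw [rad_int (fun r => Gs r / max r ‖y‖), ← newton1 hR, ← integral_const_mul]
  refine setIntegral_congr_fun measurableSet_Ioi (fun r hr => ?_)
  have hr' : (0:ℝ) < r := hr
  have hm : 0 < max r ‖y‖ := lt_of_lt_of_le hr' (le_max_left _ _)
  simp only [Gs]
  have := Real.pi_pos
  field_simp

open Pool.Agent.Q233.TFShell in
lemma Gs_self : ∫ x : EuclideanSpace ℝ (Fin 3), Gs ‖x‖ * (P ‖x‖ / ‖x‖) = 3116899789/18661757400 := by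
  rw [rad_int (fun r => Gs r * (P r / r)), ← SP_int.2, ← integral_const_mul]
  refine setIntegral_congr_fun measurableSet_Ioi (fun r hr => ?_)
  have hr' : (0:ℝ) < r := hr
  simp only [Gs]
  have := Real.pi_pos
  field_simp

/-- the auxiliary Thomas-Fermi potential -/
noncomputable def Wr (r : ℝ) : ℝ := 3/5 * T r / r

open Pool.Agent.Q233.TFShell in
lemma Wr_int : Integrable (fun x : EuclideanSpace ℝ (Fin 3) => Wr ‖x‖ ^ (5/2 : ℝ)) ∧
    ∫ x : EuclideanSpace ℝ (Fin 3), Wr ‖x‖ ^ (5/2 : ℝ) =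
      4 * Real.pi * ((3/5) ^ (5/2 : ℝ) * ((16/5) ^ (1/2 : ℝ) * √Real.pi)) := by
  have hv := Real.integral_rpow_mul_exp_neg_mul_Ioi (a := (1/2 : ℝ)) (r := (5/16 : ℝ))
    (by positivity) (by norm_num)
  rw [Real.Gamma_one_half_eq] at hv
  have h1 : ∀ r ∈ Ioi (0:ℝ), (3/5 : ℝ) ^ (5/2 : ℝ) * (r ^ ((1/2 : ℝ) - 1) * Real.exp (-((5/16 : ℝ) * r)))
      = r ^ 2 * Wr r ^ (5/2 : ℝ) := by
    intro r hr
    have hr' : (0:ℝ) < r := hr
    unfold Wr
    rw [Real.div_rpow (by have := T_pos r; positivity) hr'.le, Real.mul_rpow (by norm_num) (T_pos r).le]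
    have e1 : T r ^ (5/2 : ℝ) = Real.exp (-((5/16 : ℝ) * r)) := by
      unfold T; rw [← Real.exp_mul]; congr 1; ring
    have e2 : r ^ ((1/2 : ℝ) - 1) * r ^ (5/2 : ℝ) = r ^ 2 := by
      rw [← Real.rpow_add hr']; norm_num
    have e3 : r ^ (5/2 : ℝ) ≠ 0 := by positivity
    rw [e1, ← e2]
    field_simp
  have hv2 : ∫ r in Ioi (0:ℝ), r ^ 2 * Wr r ^ (5/2 : ℝ)
      = (3/5) ^ (5/2 : ℝ) * ((16/5) ^ (1/2 : ℝ) * √Real.pi) := by
    rw [← setIntegral_congr_fun measurableSet_Ioi h1, integral_const_mul, hv]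
    norm_num
  refine ⟨?_, ?_⟩
  · rw [rad_intble (f := fun r => Wr r ^ (5/2 : ℝ))]
    by_contra hc
    rw [IntegrableOn] at hc
    rw [integral_undef hc] at hv2
    have : (0:ℝ) < (3/5) ^ (5/2 : ℝ) * ((16/5) ^ (1/2 : ℝ) * √Real.pi) := by positivity
    linarith
  · rw [rad_int (fun r => Wr r ^ (5/2 : ℝ)), hv2]

end Pool.Agent.Q235.FA
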