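import Mathlib
import Pool.Agent.Q235.FA.Defs
import Pool.Agent.Q235.FA.Hardy2
import Pool.Agent.Q235.FA.Rad

/-!
# Lower bounds for the Fermi-Amaldi energy
-/

set_option autoImplicit false

open MeasureTheory Filter Topology Set
open scoped ENNReal NNReal ContDiff

namespace Pool.Agent.Q235.FA

variable {ρ : E3 → ℝ} {g : E3 → E3}

lemma Density.adm (h : Density ρ g) : Pool.Agent.Helper149.TFDW.Admissible (5/3) ρ g :=
  ⟨h.nonneg, h.integrable, h.integrable_rpow, h.grad_memLp, h.grad_weak⟩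

lemma Density.hardy (h : Density ρ g) {α c : ℝ} (hα : 0 ≤ α) (hc : 0 ≤ c) :
    Integrable (fun x => ρ x * Ph α c x) ∧ ∫ x, ρ x * Ph α c x ≤ ∫ x, ‖g x‖ ^ 2 :=
  hardy_adm (by norm_num) hα hc h.adm

lemma Density.inv_int (h : Density ρ g) : Integrable (fun x => ρ x / ‖x‖) := by
  have h1 := (h.hardy (α := 1) (c := 0) zero_le_one le_rfl).1
  have h2 := (h1.add h.integrable).div_const 2
  refine h2.congr (ae_of_all _ fun x => ?_)
  simp only [Ph, wt, Pi.add_apply]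
  simp
  ring

lemma Density.rep_nonneg (h : Density ρ g) : 0 ≤ ∫ x, ∫ y, ρ x * ρ y / ‖x - y‖ :=
  integral_nonneg fun x => integral_nonneg fun y =>
    div_nonneg (mul_nonneg (h.nonneg x) (h.nonneg y)) (norm_nonneg _)

lemma Density.rpow_nonneg (h : Density ρ g) : 0 ≤ ∫ x, ρ x ^ (5/3 : ℝ) :=
  integral_nonneg fun x => Real.rpow_nonneg (h.nonneg x) _

/-- the energy is bounded below -/
lemma energy_ge (h : Density ρ g) (z N : ℕ) :
    -((z:ℝ) ^ 2 / (4 * 0.1859)) * (∫ x, ρ x) ≤ energy z N ρ g := by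
  set α : ℝ := z / (2 * 0.1859) with hα
  have hα0 : 0 ≤ α := by positivity
  obtain ⟨h1, h2⟩ := h.hardy (α := α) (c := 0) hα0 le_rfl
  have e1 : ∫ x, ρ x * Ph α 0 x = 2 * α * (∫ x, ρ x / ‖x‖) - α ^ 2 * ∫ x, ρ x := by
    rw [← integral_const_mul, ← integral_const_mul, ← integral_sub (h.inv_int.const_mul _)
      (h.integrable.const_mul _)]
    congr 1
    funext x
    simp only [Ph, wt]
    simp
    ring
  have e2 : ∫ x, z / ‖x‖ * ρ x = z * ∫ x, ρ x / ‖x‖ := by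
    rw [← integral_const_mul]
    congr 1
    funext x
    ring
  have h3 := h.rep_nonneg
  have h4 := h.rpow_nonneg
  have h5 : 0 ≤ (1 - 1 / (N:ℝ)) := by
    rcases Nat.eq_zero_or_pos N with h0 | h0
    · rw [h0]; norm_num
    · have : (1:ℝ) ≤ N := by exact_mod_cast h0
      have : 1 / (N:ℝ) ≤ 1 := by
        rw [div_le_one (by linarith)]; exact this
      linarith
  have h6 : 0 ≤ 3 / 5 * (3 * Real.pi ^ 2) ^ (2/3 : ℝ) * (∫ x, ρ x ^ (5/3 : ℝ)) := by positivity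
  have h7 : 0 ≤ (1 - 1 / (N:ℝ)) * (1 / 2 * ∫ x, ∫ y, ρ x * ρ y / ‖x - y‖) := by positivity
  have h8 : 0.1859 * (∫ x, ρ x * Ph α 0 x) ≤ 0.1859 * ∫ x, ‖g x‖ ^ 2 :=
    mul_le_mul_of_nonneg_left h2 (by norm_num)
  rw [e1] at h8
  unfold energy
  rw [e2]
  have h9 : 0.1859 * (2 * α * (∫ x, ρ x / ‖x‖) - α ^ 2 * ∫ x, ρ x)
      = z * (∫ x, ρ x / ‖x‖) - (z:ℝ) ^ 2 / (4 * 0.1859) * (∫ x, ρ x) := by
    rw [hα]; field_simp; ring
  rw [h9] at h8
  linarith

/-- the electrostatic lower bound -/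
lemma Density.coul (h : Density ρ g) :
    Integrable (fun x => ρ x * (P ‖x‖ / ‖x‖)) ∧
    (∫ x, ρ x * (P ‖x‖ / ‖x‖)) - 3116899789/18661757400 ≤
      1 / 4 * ∫ x, ∫ y, ρ x * ρ y / ‖x - y‖ := by
  have hne : ∀ᵐ x : E3, x ≠ 0 := by
    rw [ae_iff]; simp
  set τ : E3 → ℝ := h.integrable.aestronglyMeasurable.mk ρ with hτ
  have hτe : ρ =ᵐ[volume] τ := h.integrable.aestronglyMeasurable.ae_eq_mk
  have hτm : Measurable τ := h.integrable.aestronglyMeasurable.stronglyMeasurable_mk.measurable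
  have hτn : Pool.Agent.TH791.Cl.Nice τ := by
    refine ⟨hτm, h.integrable.congr hτe, h.integrable_rpow.congr ?_⟩
    filter_upwards [hτe] with x hx
    rw [← hx, abs_of_nonneg (h.nonneg x)]
  have hNn : Pool.Agent.TH791.Cl.Nice (fun x : E3 => 2 * Gs ‖x‖) := by
    obtain ⟨n1, n2, n3⟩ := Gs_nice
    refine ⟨n1.const_mul 2, n2.const_mul 2, ?_⟩
    refine (n3.const_mul ((2:ℝ) ^ (5/3 : ℝ))).congr (ae_of_all _ fun x => ?_)
    simp only
    rw [abs_mul, abs_two, Real.mul_rpow (by norm_num) (abs_nonneg _)]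
  have hpot : ∀ x : E3, x ≠ 0 → Pool.Agent.TH791.Cl.pot (fun x : E3 => 2 * Gs ‖x‖) x = 2 * (P ‖x‖ / ‖x‖) := by
    intro x hx
    rw [← Gs_pot hx]
    unfold Pool.Agent.TH791.Cl.pot
    rw [← integral_const_mul]
    congr 1
    funext y
    ring
  have hmain := Pool.Agent.TH791.Cl.pd_main τ _ hτn hNn
  have hint := Pool.Agent.TH791.Cl.pd_int τ _ hτn hNn
  have e1 : ∫ x, τ x * Pool.Agent.TH791.Cl.pot (fun x : E3 => 2 * Gs ‖x‖) x
      = 2 * ∫ x, ρ x * (P ‖x‖ / ‖x‖) := by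
    rw [← integral_const_mul]
    refine integral_congr_ae ?_
    filter_upwards [hτe, hne] with x hx hx0
    rw [hpot x hx0, ← hx]; ring
  have hi : Integrable (fun x => ρ x * (P ‖x‖ / ‖x‖)) := by
    refine (hint.div_const 2).congr ?_
    filter_upwards [hτe, hne] with x hx hx0
    rw [hpot x hx0, ← hx]; ring
  have e2 : ∫ x : E3, (2 * Gs ‖x‖) * Pool.Agent.TH791.Cl.pot (fun x : E3 => 2 * Gs ‖x‖) x
      = 4 * (3116899789/18661757400) := by
    rw [← Gs_self, ← integral_const_mul]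
    refine integral_congr_ae ?_
    filter_upwards [hne] with x hx0
    rw [hpot x hx0]; ring
  have e3 : ∫ x, ∫ y, τ x * τ y / ‖x - y‖ = ∫ x, ∫ y, ρ x * ρ y / ‖x - y‖ := by
    refine integral_congr_ae ?_
    filter_upwards [hτe] with x hx
    refine integral_congr_ae ?_
    filter_upwards [hτe] with y hy
    rw [hx, hy]
  refine ⟨hi, ?_⟩
  rw [e1, e2, e3] at hmain
  linarith

/-- Young's inequality -/
lemma young {γ : ℝ} (hγ : 0 < γ) {t W : ℝ} (ht : 0 ≤ t) (hW : 0 ≤ W) :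
    W * t ≤ 3 / 5 * γ ^ (2/3 : ℝ) * t ^ (5/3 : ℝ) + 2 / 5 * γ⁻¹ * W ^ (5/2 : ℝ) := by
  have hq : Real.HolderConjugate (5/3) (5/2) := by
    rw [Real.holderConjugate_iff]
    constructor <;> norm_num
  have hg0 : 0 < γ ^ (2/5 : ℝ) := by positivity
  have h := Real.young_inequality_of_nonneg (mul_nonneg hg0.le ht) (div_nonneg hW hg0.le) hq
  have e1 : γ ^ (2/5 : ℝ) * t * (W / γ ^ (2/5 : ℝ)) = W * t := by field_simp
  have e2 : (γ ^ (2/5 : ℝ) * t) ^ (5/3 : ℝ) = γ ^ (2/3 : ℝ) * t ^ (5/3 : ℝ) := by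
    rw [Real.mul_rpow hg0.le ht, ← Real.rpow_mul hγ.le]; norm_num
  have e3 : (W / γ ^ (2/5 : ℝ)) ^ (5/2 : ℝ) = γ⁻¹ * W ^ (5/2 : ℝ) := by
    rw [Real.div_rpow hW hg0.le, ← Real.rpow_mul hγ.le]
    norm_num
    ring
  rw [e1, e2, e3] at h
  refine h.trans (le_of_eq ?_)
  ring

/-- the cost of the Thomas-Fermi part -/
lemma cost_le : 2 / 5 * (3 * Real.pi ^ 2)⁻¹ *
    (4 * Real.pi * ((3/5) ^ (5/2 : ℝ) * ((16/5) ^ (1/2 : ℝ) * √Real.pi))) ≤ 0.1502 := by
  have hπ := Real.pi_pos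
  have hπ3 := Real.pi_gt_d4
  have e1 : ((3:ℝ)/5) ^ (5/2 : ℝ) = 9/25 * √(3/5) := by
    rw [Real.sqrt_eq_rpow]
    have : (9/25 : ℝ) = (3/5 : ℝ) ^ (2:ℝ) := by norm_num
    rw [this, ← Real.rpow_add (by norm_num)]
    norm_num
  have e2 : ((16:ℝ)/5) ^ (1/2 : ℝ) = √(16/5) := by rw [Real.sqrt_eq_rpow]
  rw [e1, e2]
  have e3 : √(3/5 : ℝ) * √(16/5) = √(48/25) := by
    rw [← Real.sqrt_mul (by norm_num)]; norm_num
  have e4 : √(48/25 : ℝ) ≤ 1.38565 := by
    rw [Real.sqrt_le_left (by norm_num)]; norm_num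
  have e5 : Real.pi = √Real.pi * √Real.pi := (Real.mul_self_sqrt hπ.le).symm
  have e6 : (1.7724 : ℝ) ≤ √Real.pi := by
    apply Real.le_sqrt_of_sq_le; norm_num; linarith
  have hs : 0 < √Real.pi := Real.sqrt_pos.mpr hπ
  have e7 : 2 / 5 * (3 * Real.pi ^ 2)⁻¹ * (4 * Real.pi * (9/25 * √(3/5) * (√(16/5) * √Real.pi)))
      = (24 / 125) * (√(3/5) * √(16/5)) / √Real.pi := by
    have : Real.pi ^ 2 = Real.pi * (√Real.pi * √Real.pi) := by rw [← e5]; ring
    rw [this]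
    field_simp
    ring
  rw [e7, e3, div_le_iff₀ hs]
  nlinarith

/-- **the lower bound** `E(2) ≥ -0.3173` for hydrogen with two electrons (any mass) -/
theorem lower_two (h : Density ρ g) : (-0.3173 : ℝ) ≤ energy 1 2 ρ g := by
  have hne : ∀ᵐ x : E3, x ≠ 0 := by
    rw [ae_iff]; simp
  set α : ℝ := (2/5) / (2 * 0.1859) with hα
  obtain ⟨hH1, hH2⟩ := h.hardy (α := α) (c := 1/4) (by positivity) (by norm_num)
  obtain ⟨hC1, hC2⟩ := h.coul
  obtain ⟨hW1, hW2⟩ := Wr_int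
  have hinv := h.inv_int
  set γ : ℝ := 3 * Real.pi ^ 2 with hγ
  have hγ0 : 0 < γ := by positivity
  have hT : Integrable (fun x => ρ x * Wr ‖x‖) := by
    refine (hinv).mono' ?_ (ae_of_all _ fun x => ?_)
    · refine h.integrable.aestronglyMeasurable.mul ?_
      have : Measurable Wr := by
        unfold Wr; exact (T_cont.measurable.const_mul _).div measurable_id
      exact (this.comp measurable_norm).aestronglyMeasurable
    · have h0 := h.nonneg x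
      have h1 := T_le_one (norm_nonneg x)
      have h2 := T_pos ‖x‖
      unfold Wr
      rw [Real.norm_of_nonneg (by positivity), mul_div_assoc']
      gcongr
      nlinarith
  have hY : (∫ x, ρ x * Wr ‖x‖) ≤ 3 / 5 * γ ^ (2/3 : ℝ) * (∫ x, ρ x ^ (5/3 : ℝ))
      + 2 / 5 * γ⁻¹ * ∫ x : E3, Wr ‖x‖ ^ (5/2 : ℝ) := by
    rw [← integral_const_mul, ← integral_const_mul,
      ← integral_add (h.integrable_rpow.const_mul _) (hW1.const_mul _)]
    refine integral_mono hT ((h.integrable_rpow.const_mul _).add (hW1.const_mul _)) (fun x => ?_)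
    have hW0 : 0 ≤ Wr ‖x‖ := by
      unfold Wr; have := T_pos ‖x‖; positivity
    have := young hγ0 (h.nonneg x) hW0
    show _ ≤ _ + _
    linarith
  rw [hW2] at hY
  have hcost := cost_le
  rw [← hγ] at hcost
  have e2 : ∫ x, ((1:ℕ):ℝ) / ‖x‖ * ρ x = ∫ x, ρ x / ‖x‖ := by
    congr 1
    funext x
    push_cast
    ring
  -- the pointwise identity
  have hid : 0.1859 * (∫ x, ρ x * Ph α (1/4) x) + (∫ x, ρ x * Wr ‖x‖)
      + (∫ x, ρ x * (P ‖x‖ / ‖x‖)) = ∫ x, ρ x / ‖x‖ := by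
    have hA : Integrable (fun x => 0.1859 * (ρ x * Ph α (1/4) x) + ρ x * Wr ‖x‖) :=
      (hH1.const_mul _).add hT
    rw [← integral_const_mul, ← integral_add (hH1.const_mul _) hT, ← integral_add hA hC1]
    refine integral_congr_ae ?_
    filter_upwards [hne] with x hx0
    have hx : 0 < ‖x‖ := norm_pos_iff.mpr hx0
    simp only [Ph, wt, Wr, P]
    have e3 : Real.exp (-(1/4 * ‖x‖)) = T ‖x‖ ^ 2 := by
      rw [T_pow]; congr 1; push_cast; ring
    rw [e3, hα]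
    field_simp
    ring
  have h8 : 0.1859 * (∫ x, ρ x * Ph α (1/4) x) ≤ 0.1859 * ∫ x, ‖g x‖ ^ 2 :=
    mul_le_mul_of_nonneg_left hH2 (by norm_num)
  unfold energy
  rw [e2, ← hγ]
  have h9 : (1 - 1 / ((2:ℕ):ℝ)) * (1 / 2 * ∫ x, ∫ y, ρ x * ρ y / ‖x - y‖)
      = 1 / 4 * ∫ x, ∫ y, ρ x * ρ y / ‖x - y‖ := by
    push_cast; ring
  rw [h9]
  have h10 : (3116899789/18661757400 : ℝ) ≤ 0.16703 := by norm_num
  linarith

end Pool.Agent.Q235.FA
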