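import Mathlib
import Pool.Agent.Q235.FA.Defs
import Pool.Agent.Q235.FA.Rad

/-!
# Exponential trial densities
-/

set_option autoImplicit false

open MeasureTheory Filter Topology Set
open scoped ENNReal NNReal ContDiff

namespace Pool.Agent.Q235.FA

lemma powexp (j : ℕ) {b : ℝ} (hb : 0 < b) :
    IntegrableOn (fun r : ℝ => r ^ j * Real.exp (-(b * r))) (Ioi 0) ∧
    ∫ r in Ioi (0:ℝ), r ^ j * Real.exp (-(b * r)) = j.factorial / b ^ (j + 1) := by
  have h1 : ∀ r ∈ Ioi (0:ℝ), r ^ ((j + 1 : ℝ) - 1) * Real.exp (-(b * r)) = r ^ j * Real.exp (-(b * r)) := by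
    intro r hr
    rw [add_sub_cancel_right, Real.rpow_natCast]
  have hv := Real.integral_rpow_mul_exp_neg_mul_Ioi (a := (j + 1 : ℝ)) (r := b)
    (by positivity) hb
  rw [setIntegral_congr_fun measurableSet_Ioi h1] at hv
  have hval : (1 / b) ^ (j + 1 : ℝ) * Real.Gamma (j + 1) = j.factorial / b ^ (j + 1) := by
    rw [Real.Gamma_nat_eq_factorial]
    have : ((j:ℝ) + 1) = ((j + 1 : ℕ) : ℝ) := by push_cast; ring
    rw [this, Real.rpow_natCast, one_div, inv_pow]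
    ring
  rw [hval] at hv
  refine ⟨?_, hv⟩
  by_contra hc
  rw [IntegrableOn] at hc
  rw [integral_undef hc] at hv
  have : (0:ℝ) < j.factorial / b ^ (j + 1) := by
    have := Nat.factorial_pos j
    positivity
  linarith

open Pool.Agent.Q233.TFShell in
lemma exp3 {b : ℝ} (hb : 0 < b) :
    Integrable (fun x : EuclideanSpace ℝ (Fin 3) => Real.exp (-(b * ‖x‖))) ∧
    ∫ x : EuclideanSpace ℝ (Fin 3), Real.exp (-(b * ‖x‖)) = 8 * Real.pi / b ^ 3 := by
  have h := powexp 2 hb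
  refine ⟨?_, ?_⟩
  · rw [rad_intble (f := fun r => Real.exp (-(b * r)))]
    exact h.1
  · rw [rad_int (fun r => Real.exp (-(b * r))), h.2]
    norm_num [Nat.factorial]
    ring

open Pool.Agent.Q233.TFShell in
lemma exp3_inv {b : ℝ} (hb : 0 < b) :
    ∫ x : EuclideanSpace ℝ (Fin 3), Real.exp (-(b * ‖x‖)) / ‖x‖ = 4 * Real.pi / b ^ 2 := by
  have h := powexp 1 hb
  rw [rad_int (fun r => Real.exp (-(b * r)) / r)]
  have e : ∫ r in Ioi (0:ℝ), r ^ 2 * (Real.exp (-(b * r)) / r) = ∫ r in Ioi (0:ℝ), r ^ 1 * Real.exp (-(b * r)) := by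
    refine setIntegral_congr_fun measurableSet_Ioi (fun r hr => ?_)
    have : (0:ℝ) < r := hr
    field_simp
  rw [e, h.2]
  norm_num [Nat.factorial]
  ring

/-- the exponential density of mass `m` -/
noncomputable def tr (a m : ℝ) (x : EuclideanSpace ℝ (Fin 3)) : ℝ :=
  m * (a ^ 3 / Real.pi) * Real.exp (-(2 * a * ‖x‖))

/-- the amplitude -/
noncomputable def am (a m : ℝ) : ℝ := √(m * (a ^ 3 / Real.pi))

/-- the gradient of its square root -/
noncomputable def tg (a m : ℝ) (x : EuclideanSpace ℝ (Fin 3)) : EuclideanSpace ℝ (Fin 3) :=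
  (-(a * (am a m * Real.exp (-(a * ‖x‖))) / ‖x‖)) • x

lemma sqrt_tr {a m : ℝ} (ha : 0 < a) (hm : 0 ≤ m) (x : EuclideanSpace ℝ (Fin 3)) :
    √(tr a m x) = am a m * Real.exp (-(a * ‖x‖)) := by
  unfold tr am
  rw [Real.sqrt_mul (by positivity)]
  congr 1
  rw [show -(2 * a * ‖x‖) = -(a * ‖x‖) + -(a * ‖x‖) by ring, Real.exp_add, Real.sqrt_mul_self (Real.exp_pos _).le]

lemma exp_lip {u v : ℝ} (hu : 0 ≤ u) (huv : u ≤ v) : |Real.exp (-u) - Real.exp (-v)| ≤ v - u := by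
  have h1 : Real.exp (-v) ≤ Real.exp (-u) := Real.exp_le_exp.mpr (by linarith)
  rw [abs_of_nonneg (by linarith)]
  have h2 : Real.exp (-v) = Real.exp (-u) * Real.exp (-(v - u)) := by
    rw [← Real.exp_add]; congr 1; ring
  have h3 := Real.add_one_le_exp (-(v - u))
  have h4 : Real.exp (-u) ≤ 1 := by rw [Real.exp_le_one_iff]; linarith
  have h5 := Real.exp_pos (-u)
  rw [h2]
  nlinarith

lemma tr_lip {a m : ℝ} (ha : 0 < a) :
    LipschitzWith (Real.toNNReal (am a m * a)) (fun x : EuclideanSpace ℝ (Fin 3) => am a m * Real.exp (-(a * ‖x‖))) := by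
  have hK : 0 ≤ am a m := Real.sqrt_nonneg _
  refine LipschitzWith.of_dist_le_mul (fun x y => ?_)
  rw [Real.coe_toNNReal _ (by positivity), Real.dist_eq, ← mul_sub, abs_mul, abs_of_nonneg hK, mul_assoc]
  refine mul_le_mul_of_nonneg_left ?_ hK
  have h1 : |Real.exp (-(a * ‖x‖)) - Real.exp (-(a * ‖y‖))| ≤ a * |‖x‖ - ‖y‖| := by
    rcases le_total ‖x‖ ‖y‖ with h | h
    · have := exp_lip (u := a * ‖x‖) (v := a * ‖y‖) (by positivity) (mul_le_mul_of_nonneg_left h ha.le)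
      rw [abs_of_nonpos (by linarith : ‖x‖ - ‖y‖ ≤ 0)]
      linarith
    · have := exp_lip (u := a * ‖y‖) (v := a * ‖x‖) (by positivity) (mul_le_mul_of_nonneg_left h ha.le)
      rw [abs_sub_comm, abs_of_nonneg (by linarith : 0 ≤ ‖x‖ - ‖y‖)]
      linarith
  refine h1.trans (mul_le_mul_of_nonneg_left ?_ ha.le)
  rw [dist_eq_norm]
  exact abs_norm_sub_norm_le x y

lemma tr_line {a m : ℝ} {x : EuclideanSpace ℝ (Fin 3)} (hx : x ≠ 0) (v : EuclideanSpace ℝ (Fin 3)) :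
    HasLineDerivAt ℝ (fun x : EuclideanSpace ℝ (Fin 3) => am a m * Real.exp (-(a * ‖x‖)))
      (inner ℝ (tg a m x) v) x v := by
  have hx' : 0 < ‖x‖ := norm_pos_iff.mpr hx
  have h1 := (hasStrictFDerivAt_norm_sq x).hasFDerivAt.sqrt (by positivity)
  have h2 : HasFDerivAt (fun x : EuclideanSpace ℝ (Fin 3) => ‖x‖)
      ((1 / (2 * √(‖x‖ ^ 2))) • ((2:ℕ) • (innerSL ℝ x))) x := by
    simpa [Real.sqrt_sq (norm_nonneg _)] using h1
  have h3 : HasFDerivAt (fun x : EuclideanSpace ℝ (Fin 3) => am a m * Real.exp (-(a * ‖x‖)))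
      (am a m • (Real.exp (-(a * ‖x‖)) • (-(a • ((1 / (2 * √(‖x‖ ^ 2))) • ((2:ℕ) • (innerSL ℝ x))))))) x :=
    (((h2.const_mul a).neg).exp).const_mul (am a m)
  refine (h3.hasLineDerivAt v).congr_deriv ?_
  simp only [tg, smul_apply, neg_apply, innerSL_apply_apply, smul_eq_mul, inner_smul_left,
    Real.sqrt_sq hx'.le]
  simp
  field_simp

lemma tg_norm {a m : ℝ} (ha : 0 < a) (hm : 0 ≤ m) {x : EuclideanSpace ℝ (Fin 3)} (hx : x ≠ 0) :
    ‖tg a m x‖ ^ 2 = a ^ 2 * tr a m x := by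
  have hx' : 0 < ‖x‖ := norm_pos_iff.mpr hx
  have h1 : tr a m x = (am a m * Real.exp (-(a * ‖x‖))) ^ 2 := by
    rw [← sqrt_tr ha hm, Real.sq_sqrt]
    unfold tr; positivity
  rw [h1]
  unfold tg
  rw [norm_smul, mul_pow, Real.norm_eq_abs, sq_abs]
  field_simp

theorem tr_density {a m : ℝ} (ha : 0 < a) (hm : 0 ≤ m) : Density (tr a m) (tg a m) := by
  have hne : ∀ᵐ x : EuclideanSpace ℝ (Fin 3), x ≠ 0 := by
    rw [ae_iff]; simp
  have hint : Integrable (tr a m) := (exp3 (b := 2 * a) (by positivity)).1.const_mul _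
  refine ⟨fun x => by unfold tr; positivity, hint, ?_, ?_, ?_⟩
  · have h := (exp3 (b := 2 * a * (5/3)) (by positivity)).1.const_mul ((m * (a ^ 3 / Real.pi)) ^ (5/3 : ℝ))
    refine h.congr (ae_of_all _ fun x => ?_)
    unfold tr
    simp only
    rw [Real.mul_rpow (by positivity) (Real.exp_pos _).le, ← Real.exp_mul]
    congr 2
    ring
  · have hm1 : AEStronglyMeasurable (tg a m) volume := by
      have : Measurable (tg a m) := by
        have h1 : Measurable (fun x : EuclideanSpace ℝ (Fin 3) =>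
            (-(a * (am a m * Real.exp (-(a * ‖x‖))) / ‖x‖))) := by fun_prop
        exact h1.smul measurable_id
      exact this.aestronglyMeasurable
    rw [memLp_two_iff_integrable_sq_norm hm1]
    refine (hint.const_mul (a ^ 2)).congr ?_
    filter_upwards [hne] with x hx
    rw [tg_norm ha hm hx]
  · intro φ hφ hφc v
    obtain ⟨D, hD⟩ := ContDiff.lipschitzWith_of_hasCompactSupport hφc hφ (by simp)
    have h := LipschitzWith.integral_lineDeriv_mul_eq (μ := (volume : Measure (EuclideanSpace ℝ (Fin 3))))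
      (tr_lip (m := m) ha) hD hφc v
    have e1 : ∫ x, lineDeriv ℝ (fun x : EuclideanSpace ℝ (Fin 3) => am a m * Real.exp (-(a * ‖x‖))) x v * φ x
        = ∫ x, inner ℝ (tg a m x) v * φ x := by
      refine integral_congr_ae ?_
      filter_upwards [hne] with x hx
      rw [(tr_line hx v).lineDeriv]
    have e2 : ∀ x, lineDeriv ℝ φ x (-v) = - (fderiv ℝ φ x v) := by
      intro x
      have hd : DifferentiableAt ℝ φ x := (hφ.differentiable (by simp)) x
      rw [hd.lineDeriv_eq_fderiv, map_neg]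
    rw [← e1, h, ← integral_neg]
    congr 1
    funext x
    rw [e2, sqrt_tr ha hm]
    ring

lemma tr_mass {a m : ℝ} (ha : 0 < a) : ∫ x, tr a m x = m := by
  unfold tr
  rw [integral_const_mul, (exp3 (b := 2 * a) (by positivity)).2]
  have := Real.pi_pos
  field_simp
  ring

theorem values_nonempty (z N : ℕ) : (values z N).Nonempty :=
  ⟨_, tr 1 N, tg 1 N, tr_density one_pos (Nat.cast_nonneg N), tr_mass one_pos, rfl⟩

/-- the trial energy of hydrogen -/
theorem upper_one : energy 1 1 (tr (13/20) 1) (tg (13/20) 1) ≤ -0.327 := by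
  have hne : ∀ᵐ x : EuclideanSpace ℝ (Fin 3), x ≠ 0 := by
    rw [ae_iff]; simp
  have hπ := Real.pi_pos
  set a : ℝ := 13/20 with ha
  have ha0 : 0 < a := by norm_num
  have e1 : ∫ x, ‖tg a 1 x‖ ^ 2 = a ^ 2 := by
    have : ∫ x, ‖tg a 1 x‖ ^ 2 = ∫ x, a ^ 2 * tr a 1 x := by
      refine integral_congr_ae ?_
      filter_upwards [hne] with x hx
      rw [tg_norm ha0 zero_le_one hx]
    rw [this, integral_const_mul, tr_mass ha0, mul_one]
  have e2 : ∫ x, ((1:ℕ):ℝ) / ‖x‖ * tr a 1 x = a := by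
    have : ∀ x : EuclideanSpace ℝ (Fin 3), ((1:ℕ):ℝ) / ‖x‖ * tr a 1 x
        = (a ^ 3 / Real.pi) * (Real.exp (-(2 * a * ‖x‖)) / ‖x‖) := by
      intro x; unfold tr; push_cast; ring
    simp only [this]
    rw [integral_const_mul, exp3_inv (b := 2 * a) (by positivity)]
    field_simp
    ring
  have e3 : ∫ x, tr a 1 x ^ (5/3 : ℝ) = (a ^ 3 / Real.pi) ^ (5/3 : ℝ) * (8 * Real.pi / (2 * a * (5/3)) ^ 3) := by
    have : ∀ x : EuclideanSpace ℝ (Fin 3), tr a 1 x ^ (5/3 : ℝ)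
        = (a ^ 3 / Real.pi) ^ (5/3 : ℝ) * Real.exp (-(2 * a * (5/3) * ‖x‖)) := by
      intro x
      unfold tr
      rw [one_mul, Real.mul_rpow (by positivity) (Real.exp_pos _).le, ← Real.exp_mul]
      congr 2
      ring
    simp only [this]
    rw [integral_const_mul, (exp3 (b := 2 * a * (5/3)) (by positivity)).2]
  have e4 : 3 / 5 * (3 * Real.pi ^ 2) ^ (2/3 : ℝ) * ((a ^ 3 / Real.pi) ^ (5/3 : ℝ) * (8 * Real.pi / (2 * a * (5/3)) ^ 3))
      = 0.1296 * a ^ 2 * (9 * Real.pi ^ 2) ^ (1/3 : ℝ) := by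
    have h1 : (a ^ 3 / Real.pi) ^ (5/3 : ℝ) = a ^ 5 / Real.pi ^ (5/3 : ℝ) := by
      rw [Real.div_rpow (by positivity) hπ.le]
      congr 1
      rw [← Real.rpow_natCast a 3, ← Real.rpow_mul ha0.le, ← Real.rpow_natCast a 5]
      norm_num
    have h2 : (3 * Real.pi ^ 2) ^ (2/3 : ℝ) = (9:ℝ) ^ (1/3 : ℝ) * Real.pi ^ (4/3 : ℝ) := by
      rw [Real.mul_rpow (by norm_num) (by positivity)]
      congr 1
      · rw [show (9:ℝ) = 3 ^ (2:ℝ) by norm_num, ← Real.rpow_mul (by norm_num)]; norm_num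
      · rw [← Real.rpow_natCast Real.pi 2, ← Real.rpow_mul hπ.le]; norm_num
    have h3 : (9 * Real.pi ^ 2) ^ (1/3 : ℝ) = (9:ℝ) ^ (1/3 : ℝ) * Real.pi ^ (2/3 : ℝ) := by
      rw [Real.mul_rpow (by norm_num) (by positivity)]
      congr 1
      rw [← Real.rpow_natCast Real.pi 2, ← Real.rpow_mul hπ.le]; norm_num
    have h4 : Real.pi ^ (4/3 : ℝ) * Real.pi = Real.pi ^ (2/3 : ℝ) * Real.pi ^ (5/3 : ℝ) := by
      rw [← Real.rpow_add hπ]
      nth_rewrite 2 [← Real.rpow_one Real.pi]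
      rw [← Real.rpow_add hπ]; norm_num
    have h5 : (0:ℝ) < Real.pi ^ (5/3 : ℝ) := by positivity
    rw [h1, h2, h3]
    have h6 : 3 / 5 * ((9:ℝ) ^ (1/3 : ℝ) * Real.pi ^ (4/3 : ℝ)) * (a ^ 5 / Real.pi ^ (5/3 : ℝ) * (8 * Real.pi / (2 * a * (5/3)) ^ 3))
        = 3 / 5 * (9:ℝ) ^ (1/3 : ℝ) * (Real.pi ^ (4/3 : ℝ) * Real.pi) * (a ^ 5 / Real.pi ^ (5/3 : ℝ) * (8 / (2 * a * (5/3)) ^ 3)) := by ring
    rw [h6, h4]
    field_simp
    norm_num
  have e5 : (9 * Real.pi ^ 2) ^ (1/3 : ℝ) ≤ 4.4622 := by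
    have h1 := Real.pi_lt_d4
    have h2 : (9 * Real.pi ^ 2 : ℝ) ≤ 4.4622 ^ (3:ℝ) := by
      norm_num
      nlinarith
    calc (9 * Real.pi ^ 2) ^ (1/3 : ℝ) ≤ (4.4622 ^ (3:ℝ)) ^ (1/3 : ℝ) :=
          Real.rpow_le_rpow (by positivity) h2 (by norm_num)
      _ = 4.4622 := by rw [← Real.rpow_mul (by norm_num)]; norm_num
  unfold energy
  rw [e1, e2, e3, e4]
  have e6 : (1 - 1 / ((1:ℕ):ℝ)) = 0 := by norm_num
  rw [e6, ha]
  nlinarith

end Pool.Agent.Q235.FA
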